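import Pool.Agent.MP_3312ae_al.HR.Spec
import Pool.Agent.MP_3312ae_al.H59.Top

/-! Row HR-Exp: the finite box bound gives finite exponent for locally finite profinite
`p`-torsion groups. -/

set_option autoImplicit false

namespace Pool.Agent.MP_3312ae_al.HR

lemma pow_pow_eq_one_of_pow {p : ℕ} [hp : Fact p.Prime] {G : Type} [Group G] (hG : IsPGroup p G)
    {g : G} {n : ℕ} (hn : 0 < n) (h : g ^ n = 1) : g ^ p ^ n = 1 := by
  obtain ⟨k, hk⟩ := hG g
  obtain ⟨j, -, hj⟩ := (Nat.dvd_prime_pow hp.out).1 (orderOf_dvd_of_pow_eq_one hk)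
  have h1 : p ^ j ≤ n := hj ▸ Nat.le_of_dvd hn (orderOf_dvd_of_pow_eq_one h)
  have h2 : j ≤ n := ((Nat.lt_pow_self hp.out.one_lt).trans_le h1).le
  apply orderOf_dvd_iff_pow_eq_one.1
  rw [hj]
  exact pow_dvd_pow p h2

theorem locFinExp_of (D : ℕ) (h : BoxBound D) : LocFinExp := by
  classical
  intro p _ G _ _ _ _ _ _ hG hfin
  have hr : ∀ g : Fin D → G, Finite (FreeGroup.lift g).range := fun g => by
    rw [FreeGroup.range_lift_eq_closure]
    have := hfin (Finset.univ.image g)
    rwa [Finset.coe_image, Finset.coe_univ, Set.image_univ] at this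
  obtain ⟨M, y, K, hKn, hKf, hK⟩ := H59.baire hr
  let K1 : Subgroup (FreeGroup (Fin D)) :=
    ⨅ u : {u : Fin D → G // ∀ i, u i ∈ M.toSubgroup}, (FreeGroup.lift fun i => y i * u.1 i).ker
  have hK1n : K1.Normal := Subgroup.normal_iInf_normal fun _ => inferInstance
  have hle : K ≤ K1 := le_iInf fun u => hK u.1 u.2
  have hK1f : K1.FiniteIndex := Subgroup.finiteIndex_of_le hle
  have hK1p : IsPGroup p (FreeGroup (Fin D) ⧸ K1) := by
    intro w
    obtain ⟨w, rfl⟩ := QuotientGroup.mk_surjective w
    refine ⟨K.index, ?_⟩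
    rw [← QuotientGroup.mk_pow, QuotientGroup.eq_one_iff]
    refine Subgroup.mem_iInf.2 fun u => ?_
    rw [MonoidHom.mem_ker, map_pow]
    refine pow_pow_eq_one_of_pow hG (Nat.pos_of_ne_zero hKf.index_ne_zero) ?_
    rw [← map_pow]
    exact hK u.1 u.2 (Subgroup.pow_index_mem K w)
  obtain ⟨B, hB⟩ := h p K1 hK1f hK1p 1
  have hM : ∀ x ∈ M.toSubgroup, x ^ B.factorial = 1 := by
    intro x hx
    let H : Subgroup G := Subgroup.closure (Set.range y ∪ {x})
    have hHf : Finite H := by
      have := hfin (insert x (Finset.univ.image y))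
      rwa [Finset.coe_insert, Finset.coe_image, Finset.coe_univ, Set.image_univ,
        ← Set.union_singleton] at this
    have hy : ∀ i, y i ∈ H := fun i => Subgroup.subset_closure (Or.inl ⟨i, rfl⟩)
    have hxH : x ∈ H := Subgroup.subset_closure (Or.inr rfl)
    have hcard : Nat.card H ≤ B := by
      refine hB H (hG.to_subgroup H) (M.toSubgroup.subgroupOf H) (fun i => ⟨y i, hy i⟩)
        {⟨x, hxH⟩} (by simp) (fun z hz => ?_) ?_ ?_
      · rw [Finset.mem_singleton.1 hz]
        exact hx
      · have h1 : (Set.range (fun i => (⟨y i, hy i⟩ : H)) ∪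
            (({⟨x, hxH⟩} : Finset H) : Set H)) = H.subtype ⁻¹' (Set.range y ∪ {x}) := by
          ext z
          simp only [Set.mem_union, Set.mem_range, Finset.coe_singleton, Set.mem_singleton_iff,
            Set.mem_preimage, Subgroup.coe_subtype, Subtype.ext_iff]
        rw [h1]
        exact Subgroup.closure_closure_coe_preimage
      · intro n hn w hw
        apply H.subtype_injective
        have h2 := Subgroup.mem_iInf.1 hw ⟨fun i => (n i : G), hn⟩
        rw [MonoidHom.mem_ker] at h2
        rw [map_one, ← h2, ← MonoidHom.comp_apply]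
        congr 1
        ext i
        simp
    have h3 : (⟨x, hxH⟩ : H) ^ B.factorial = 1 := by
      apply orderOf_dvd_iff_pow_eq_one.1
      exact (orderOf_dvd_natCard _).trans (Nat.dvd_factorial Nat.card_pos hcard)
    exact congrArg Subtype.val h3
  obtain ⟨N, hN, hN'⟩ := H59.exp_of_open M (Nat.factorial_pos B) hM
  exact ⟨N, fun g => pow_pow_eq_one_of_pow hG hN (hN' g)⟩

end Pool.Agent.MP_3312ae_al.HR
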