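import Pool.Agent.MP_3312ae_al.HR.Spec
import Pool.Agent.MP_3312ae_al.H59.Top

/-! Assembly: a compact torsion group has finite exponent, given the four blocks. -/

namespace Pool.Agent.MP_3312ae_al.HR

theorem main_of (h1 : Herfort) (h2 : SylowConj) (h3 : LocFin) (h4 : LocFinExp) : Main := by
  intro G _ _ _ _ _ hG
  by_contra hne
  have hT : ∀ g : G, IsOfFinOrder g := fun g =>
    orderOf_pos_iff.1 (Nat.pos_of_ne_zero fun h => hne ⟨g, h⟩)
  have := H59.td G hT
  have key : ∀ p : ℕ, p.Prime → ∃ k : ℕ, ∀ g : G, (orderOf g).factorization p ≤ k := by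
    intro p hp
    have := Fact.mk hp
    obtain ⟨P, hc, hP, hconj⟩ := h2 G hT p hp
    have : CompactSpace P := isCompact_iff_compactSpace.1 hc.isCompact
    obtain ⟨k, hk⟩ := h4 p P hP (h3 p P hP)
    refine ⟨k, fun g => ?_⟩
    have hn : orderOf g ≠ 0 := (hT g).orderOf_pos.ne'
    have e := Nat.ordProj_mul_ordCompl_eq_self (orderOf g) p
    obtain ⟨h, hh⟩ := hconj (g ^ ordCompl[p] (orderOf g)) ⟨(orderOf g).factorization p, by
      rw [← pow_mul, mul_comm, e, pow_orderOf_eq_one]⟩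
    have h5 : (h * g ^ ordCompl[p] (orderOf g) * h⁻¹) ^ p ^ k = 1 :=
      congrArg Subtype.val (hk ⟨_, hh⟩)
    rw [conj_pow, mul_inv_eq_one, mul_eq_left, ← pow_mul, ← orderOf_dvd_iff_pow_eq_one] at h5
    have h6 : ordProj[p] (orderOf g) * ordCompl[p] (orderOf g) ∣
        p ^ k * ordCompl[p] (orderOf g) := by rwa [e, mul_comm]
    exact (Nat.pow_dvd_pow_iff_le_right hp.one_lt).1
      (Nat.dvd_of_mul_dvd_mul_right (Nat.ordCompl_pos p hn) h6)
  choose! k hk using key
  have hfin := h1 G hT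
  obtain ⟨g, -, hg⟩ := hG (∏ p ∈ hfin.toFinset, p ^ k p + 1)
  have hn : orderOf g ≠ 0 := (hT g).orderOf_pos.ne'
  have hd : orderOf g ∣ ∏ p ∈ hfin.toFinset, p ^ k p := by
    rw [← Nat.prod_factorization_pow_eq_self hn, Finsupp.prod, Nat.support_factorization]
    refine (Finset.prod_dvd_prod_of_dvd _ (fun p => p ^ k p) fun p hp =>
      pow_dvd_pow p (hk p (Nat.prime_of_mem_primeFactors hp) g)).trans
      (Finset.prod_dvd_prod_of_subset _ _ _ fun p hp => ?_)
    rw [Set.Finite.mem_toFinset]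
    exact ⟨Nat.prime_of_mem_primeFactors hp, g, Nat.dvd_of_mem_primeFactors hp⟩
  have hpos : 0 < ∏ p ∈ hfin.toFinset, p ^ k p :=
    Finset.prod_pos fun p hp => pow_pos ((Set.Finite.mem_toFinset hfin).1 hp).1.pos _
  have := Nat.le_of_dvd hpos hd
  omega

end Pool.Agent.MP_3312ae_al.HR
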