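import Pool.Agent.MP_3312ae_al.HR.Z30.Final
import Pool.Agent.MP_3312ae_al.HR.E.Fin
import Pool.Agent.MP_3312ae_al.HR.B.Sylow
import Pool.Agent.MP_3312ae_al.HR.Asm.Main

/-! Blocks B2, C and E together: everything but the finiteness of the set of primes. -/

set_option autoImplicit false

namespace Pool.Agent.MP_3312ae_al.HR

theorem main_of_herfort (h : Herfort) : Main := main_of h sylowConj locFin locFinExp

end Pool.Agent.MP_3312ae_al.HR
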